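import Pool.Agent.H11.Gap1

open H11.Gap Filter Topology

theorem Pool.Agent.Results.MP_4dddeb_co.Counter.result :
    ∃ 𝓗 : Set FinGraph, Suitable 𝓗 ∧ (∀ H ∈ 𝓗, H.2.Connected) ∧
      (∀ n, 2 ≤ n → n ≤ gap 𝓗 n + 5 ∧ 3 * (E 𝓗 n).ncard ≤ gap 𝓗 n + 3) ∧
      (∀ C : ℕ, ∃ n, 1 ≤ n ∧ C + (E 𝓗 n).ncard < gap 𝓗 n) ∧
      0 < liminf (fun n : ℕ => (gap 𝓗 n : ℝ) / n) atTop ∧
      ¬ Tendsto (fun n : ℕ => ((E 𝓗 n).ncard : ℝ) / gap 𝓗 n) atTop (𝓝 1) := by
  refine ⟨H0, suitable, fun H h => h.1, main, fun C => ⟨3 * C + 20, by omega, ?_⟩, ?_, ?_⟩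
  · have := main (3 * C + 20) (by omega)
    omega
  · refine lt_of_lt_of_le (by norm_num : (0 : ℝ) < 1 / 2) (le_liminf_of_le ?_ ?_)
    · refine IsBoundedUnder.isCoboundedUnder_ge ⟨2, ?_⟩
      rw [eventually_map]
      filter_upwards [eventually_ge_atTop 2] with n hn
      have h1 : gap H0 n ≤ 2 * n := by
        refine (Nat.sub_le _ _).trans (csSup_le ⟨_, big n hn⟩ fun e he => ?_)
        obtain ⟨c, hc⟩ := E_bdd n hn e he
        omega
      have h2 : (0 : ℝ) < n := by exact_mod_cast (by omega : 0 < n)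
      rw [div_le_iff₀ h2]
      exact_mod_cast h1
    · filter_upwards [eventually_ge_atTop 10] with n hn
      have h1 := (main n (by omega)).1
      have h2 : (0 : ℝ) < n := by exact_mod_cast (by omega : 0 < n)
      rw [div_le_div_iff₀ (by norm_num) h2]
      exact_mod_cast (by omega : 1 * n ≤ gap H0 n * 2)
  · intro h
    have : (1 : ℝ) ≤ 1 / 2 := by
      refine le_of_tendsto h ?_
      filter_upwards [eventually_ge_atTop 20] with n hn
      obtain ⟨h1, h3⟩ := main n (by omega)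
      have h2 : (0 : ℝ) < gap H0 n := by exact_mod_cast (by omega : 0 < gap H0 n)
      rw [div_le_div_iff₀ h2 (by norm_num)]
      exact_mod_cast (by omega : (E H0 n).ncard * 2 ≤ 1 * gap H0 n)
    norm_num at this
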